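import Pool.Agent.Q22.IrrDefs
import Pool.Agent.Q22.IrrSL

/-! A faithful irreducible coset space of a Hausdorff topological group with an abelian minimal
closed normal subgroup that is not its own centraliser. -/

namespace Pool.Agent.Results.MP_f36f0e_al.AbelianMinimal

open Q22.Irr

/-- There are a Hausdorff topological group `G`, a closed subgroup `H` and a subgroup `M` such that
`G/H` is a faithful irreducible coset space, `M` is an abelian minimal closed normal subgroup and
`M < C_G(M)`. -/
theorem result :
    ∃ (G : Type) (_ : Group G) (_ : TopologicalSpace G) (_ : IsTopologicalGroup G)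
      (_ : T2Space G) (H M : Subgroup G),
      IsIrreducibleCoset H ∧ IsFaithfulCoset H ∧ IsMinClosedNormal M ∧
        (∀ a ∈ M, ∀ b ∈ M, a * b = b * a) ∧ M < Subgroup.centralizer (M : Set G) :=
  example_exists

end Pool.Agent.Results.MP_f36f0e_al.AbelianMinimal
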